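import Pool.Agent.N685.FD.Levu
import Pool.Agent.N685.FD.Levl
import Pool.Agent.N685.FD.Pru
import Pool.Agent.N685.FD.Five

/-!
The levels of the total stopping time of the `5x+1` map: number and size of their members, and the
moment generating function (pressure) of the levels.
-/

set_option autoImplicit false

namespace Pool.Agent.Results.MP_0baeaf_nt.LevelsAndPressure

/-- The `5x+1` map. -/
def T (n : ℤ) : ℤ := if n % 2 = 0 then n / 2 else (5 * n + 1) / 2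

/-- The level `k`: the positive integers with total stopping time `k`. -/
def Lev (k : ℕ) : Set ℤ := {n : ℤ | 1 ≤ n ∧ (∀ j < k, T^[j] n ≠ 1) ∧ T^[k] n = 1}

/-- `F(r) = H(r) - r log 5`, `H` the natural-logarithm entropy function. -/
noncomputable def F (r : ℝ) : ℝ :=
  -r * Real.log r - (1 - r) * Real.log (1 - r) - r * Real.log 5

/-- `M(θ) = ½ (2^θ + (2/5)^θ)`. -/
noncomputable def M (θ : ℝ) : ℝ := (1 / 2) * ((2 : ℝ) ^ θ + (2 / 5 : ℝ) ^ θ)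

/-- The members of size at most `exp (t k)` of the level `k`. -/
def Sm (t : ℝ) (k : ℕ) : Set ℤ := {n : ℤ | n ∈ Lev k ∧ Real.log (n : ℝ) ≤ t * k}

/-- The members of size at least `exp (t k)` of the level `k`. -/
def La (t : ℝ) (k : ℕ) : Set ℤ := {n : ℤ | n ∈ Lev k ∧ t * k ≤ Real.log (n : ℝ)}

open Pool.Agent.N685.FD Filter Topology

theorem T_eq : T = Pool.Agent.N685.FD.T 5 1 := by
  funext n
  unfold T Pool.Agent.N685.FD.T
  norm_num

theorem Lev_eq (k : ℕ) : Lev k = LM 5 1 {1} k := by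
  ext n
  unfold Lev LM
  rw [T_eq]
  simp only [Set.mem_setOf_eq, Set.mem_singleton_iff]

theorem F_eq (r : ℝ) : F r = Fp 5 r := by
  unfold F Fp Real.binEntropy
  rw [Real.log_inv, Real.log_inv]
  push_cast
  ring

theorem M_eq (θ : ℝ) : M θ = MM 5 θ := by
  unfold M MM
  push_cast
  ring

theorem adm : Adm 5 1 := by
  refine ⟨Or.inr rfl, by norm_num, by norm_num⟩

theorem le_one : ∀ y ∈ ({1} : Set ℤ), y ≤ 1 := fun y hy => by
  rw [Set.mem_singleton_iff] at hy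
  exact hy.le

theorem fin (k : ℕ) : (Lev k).Finite := by
  rw [Lev_eq]
  exact (t_LEVU 5 1 adm {1} 1 le_one).1 k

theorem tt_eq {r : ℝ} : tt 5 (1 - r) = 5 * r / (1 - r) := by
  unfold tt
  push_cast
  ring_nf

theorem F_cont : Continuous F := by
  have : F = Fp 5 := funext F_eq
  rw [this]
  exact Fp_cont 5

theorem log_lt {r : ℝ} (h : 0 < F r) : r * Real.log 5 < Real.log 2 := by
  rw [F_eq] at h
  unfold Fp at h
  have := Real.binEntropy_le_log_two (p := r)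
  push_cast at h
  linarith

/-- the lower bounds -/
theorem low {r : ℝ} (h0 : 0 < r) (h1 : r < 1) (hF : 0 < F r) {δ : ℝ} (hδ : 0 < δ) :
    ∃ k₀ : ℕ, ∀ k : ℕ, k₀ ≤ k → ∃ S : Finset ℤ, Real.exp ((F r - δ) * k) ≤ (S.card : ℝ) ∧
      ∀ n ∈ S, n ∈ Lev k ∧ |Real.log n - (Real.log 2 - r * Real.log 5) * k| ≤ δ * k := by
  have h := t_LEVL 5 1 adm {1} 1 le_one 1 le_rfl (by norm_num) rfl r h0 h1
    (by rw [← F_eq]; exact hF) (by have := log_lt hF; push_cast; exact this) δ hδ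
  obtain ⟨k₀, hk₀⟩ := h
  refine ⟨k₀, fun k hk => ?_⟩
  obtain ⟨S, hS1, hS2⟩ := hk₀ k hk
  refine ⟨S, by rw [F_eq]; exact hS1, fun n hn => ?_⟩
  have := hS2 n hn
  rw [Lev_eq]
  push_cast at this
  exact this

theorem sm_low {r : ℝ} (h0 : 0 < r) (h1 : r < 1) (hF : 0 < F r) {ε : ℝ} (hε : 0 < ε) :
    ∃ k₀ : ℕ, ∀ k : ℕ, k₀ ≤ k →
      Real.exp ((F r - ε) * k) ≤ ((Sm (Real.log 2 - r * Real.log 5) k).ncard : ℝ) := by
  have hl5 : 0 < Real.log 5 := Real.log_pos (by norm_num)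
  have h2 : ∀ᶠ s in 𝓝[>] r, F r - ε / 2 < F s :=
    (F_cont.continuousAt.mono_left nhdsWithin_le_nhds).eventually (lt_mem_nhds (by linarith))
  have h3 : ∀ᶠ s in 𝓝[>] r, 0 < F s :=
    (F_cont.continuousAt.mono_left nhdsWithin_le_nhds).eventually (lt_mem_nhds hF)
  have h4 : ∀ᶠ s in 𝓝[>] r, s < 1 := (gt_mem_nhds h1).filter_mono nhdsWithin_le_nhds
  obtain ⟨s, hs1, hs2, hs3, hs4⟩ := (h2.and (h3.and (h4.and self_mem_nhdsWithin))).exists
  have hs4' : r < s := hs4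
  have hδ : 0 < min ((s - r) * Real.log 5) (ε / 2) := by
    have : 0 < s - r := by linarith
    positivity
  obtain ⟨k₀, hk₀⟩ := low (h0.trans hs4') hs3 hs2 hδ
  refine ⟨k₀, fun k hk => ?_⟩
  obtain ⟨S, hS1, hS2⟩ := hk₀ k hk
  have hkn : (0 : ℝ) ≤ k := Nat.cast_nonneg k
  have h5 : (S : Set ℤ) ⊆ Sm (Real.log 2 - r * Real.log 5) k := by
    intro n hn
    obtain ⟨h6, h7⟩ := hS2 n hn
    refine ⟨h6, ?_⟩
    have h8 := (abs_le.1 h7).2
    have h9 : min ((s - r) * Real.log 5) (ε / 2) * k ≤ (s - r) * Real.log 5 * k :=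
      mul_le_mul_of_nonneg_right (min_le_left _ _) hkn
    nlinarith
  have h6 := Set.ncard_le_ncard h5 ((fin k).subset fun n hn => hn.1)
  rw [Set.ncard_coe_finset] at h6
  have h7 : (S.card : ℝ) ≤ ((Sm (Real.log 2 - r * Real.log 5) k).ncard : ℝ) := by exact_mod_cast h6
  refine le_trans ?_ (hS1.trans h7)
  apply Real.exp_le_exp.2
  apply mul_le_mul_of_nonneg_right _ hkn
  have := min_le_right ((s - r) * Real.log 5) (ε / 2)
  linarith

theorem la_low {r : ℝ} (h0 : 0 < r) (h1 : r < 1) (hF : 0 < F r) {ε : ℝ} (hε : 0 < ε) :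
    ∃ k₀ : ℕ, ∀ k : ℕ, k₀ ≤ k →
      Real.exp ((F r - ε) * k) ≤ ((La (Real.log 2 - r * Real.log 5) k).ncard : ℝ) := by
  have hl5 : 0 < Real.log 5 := Real.log_pos (by norm_num)
  have h2 : ∀ᶠ s in 𝓝[<] r, F r - ε / 2 < F s :=
    (F_cont.continuousAt.mono_left nhdsWithin_le_nhds).eventually (lt_mem_nhds (by linarith))
  have h3 : ∀ᶠ s in 𝓝[<] r, 0 < F s :=
    (F_cont.continuousAt.mono_left nhdsWithin_le_nhds).eventually (lt_mem_nhds hF)
  have h4 : ∀ᶠ s in 𝓝[<] r, 0 < s := (lt_mem_nhds h0).filter_mono nhdsWithin_le_nhds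
  obtain ⟨s, hs1, hs2, hs3, hs4⟩ := (h2.and (h3.and (h4.and self_mem_nhdsWithin))).exists
  have hs4' : s < r := hs4
  have hδ : 0 < min ((r - s) * Real.log 5) (ε / 2) := by
    have : 0 < r - s := by linarith
    positivity
  obtain ⟨k₀, hk₀⟩ := low hs3 (hs4'.trans h1) hs2 hδ
  refine ⟨k₀, fun k hk => ?_⟩
  obtain ⟨S, hS1, hS2⟩ := hk₀ k hk
  have hkn : (0 : ℝ) ≤ k := Nat.cast_nonneg k
  have h5 : (S : Set ℤ) ⊆ La (Real.log 2 - r * Real.log 5) k := by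
    intro n hn
    obtain ⟨h6, h7⟩ := hS2 n hn
    refine ⟨h6, ?_⟩
    have h8 := (abs_le.1 h7).1
    have h9 : min ((r - s) * Real.log 5) (ε / 2) * k ≤ (r - s) * Real.log 5 * k :=
      mul_le_mul_of_nonneg_right (min_le_left _ _) hkn
    nlinarith
  have h6 := Set.ncard_le_ncard h5 ((fin k).subset fun n hn => hn.1)
  rw [Set.ncard_coe_finset] at h6
  have h7 : (S.card : ℝ) ≤ ((La (Real.log 2 - r * Real.log 5) k).ncard : ℝ) := by exact_mod_cast h6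
  refine le_trans ?_ (hS1.trans h7)
  apply Real.exp_le_exp.2
  apply mul_le_mul_of_nonneg_right _ hkn
  have := min_le_right ((r - s) * Real.log 5) (ε / 2)
  linarith

/-- the upper bounds -/
theorem up {z : ℝ} (hz : Q 5 z) {r : ℝ} (hr : 0 ≤ r) {ε : ℝ} (hε : 0 < ε) :
    ∃ k₀ : ℕ, ∀ k : ℕ, k₀ ≤ k →
    (1 ≤ tt 5 z → ((Sm (Real.log 2 - r * Real.log 5) k).ncard : ℝ) ≤
      Real.exp ((php 5 r z + ε) * k)) ∧
    (tt 5 z ≤ 1 → ((La (Real.log 2 - r * Real.log 5) k).ncard : ℝ) ≤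
      Real.exp ((php 5 r z + ε) * k)) := by
  obtain ⟨k₀, hk₀⟩ := (t_LEVU 5 1 adm {1} 1 le_one).2 z hz r hr ε hε
  refine ⟨k₀, fun k hk => ?_⟩
  have h := hk₀ k hk
  unfold Sm La
  rw [Lev_eq]
  push_cast at h
  exact h

theorem two_neg (η : ℝ) : (2 : ℝ) ^ (-η) = Five.z0 η := rfl

theorem zp_gt {η : ℝ} (h : IsEta η) {θ : ℝ} (hθ : 1 - η < θ) : Five.z0 η < zp 5 θ := by
  unfold Five.z0 zp
  have h1 : (5 : ℝ) ^ (-θ) < 5 ^ (η - 1) :=
    Real.rpow_lt_rpow_of_exponent_lt (by norm_num) (by linarith)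
  rw [Real.rpow_neg (by norm_num), h.2.2, ← one_div]
  have h2 : (0 : ℝ) < 5 ^ (-θ) := by positivity
  push_cast
  exact one_div_lt_one_div_of_lt (by linarith) (by linarith)

theorem zp_lt (θ : ℝ) : zp 5 θ < 1 := by
  unfold zp
  have h2 : (0 : ℝ) < ((5 : ℕ) : ℝ) ^ (-θ) := by positivity
  rw [div_lt_one (by linarith)]
  linarith

theorem zp_one_sub (θ : ℝ) : 1 - zp 5 θ = 1 / (1 + 5 ^ θ) := by
  unfold zp
  push_cast
  rw [Real.rpow_neg (by norm_num)]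
  have h2 : (0 : ℝ) < (5 : ℝ) ^ θ := by positivity
  field_simp
  ring

theorem M_one {η : ℝ} (h : IsEta η) : M (1 - η) = 1 := by
  unfold M
  have h1 : (2 / 5 : ℝ) ^ (1 - η) = 2 ^ (1 - η) * 5 ^ (η - 1) := by
    rw [Real.div_rpow (by norm_num) (by norm_num), div_eq_mul_inv, ← Real.rpow_neg (by norm_num)]
    congr 2
    ring
  have h2 : (1 : ℝ) + 5 ^ (η - 1) = 2 ^ η := h.2.2.symm
  have h3 : (2 : ℝ) ^ (1 - η) * 2 ^ η = 2 := by
    rw [← Real.rpow_add (by norm_num)]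
    norm_num
  rw [h1]
  calc 1 / 2 * ((2 : ℝ) ^ (1 - η) + 2 ^ (1 - η) * 5 ^ (η - 1))
      = 1 / 2 * (2 ^ (1 - η) * (1 + 5 ^ (η - 1))) := by ring
    _ = 1 := by rw [h2, h3]; norm_num

theorem M_pos (θ : ℝ) : 0 < M θ := by
  unfold M
  positivity

theorem M_cont : Continuous M := by
  unfold M
  exact continuous_const.mul ((Real.continuous_const_rpow (by norm_num)).add
    (Real.continuous_const_rpow (by norm_num)))

theorem PrS_eq (θ : ℝ) (k : ℕ) : ∑ᶠ n ∈ Lev k, (n : ℝ) ^ (θ - 1) = PrS 5 1 {1} θ k := by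
  unfold PrS
  rw [Lev_eq]

theorem sum_mono {θ θ' : ℝ} (h : θ ≤ θ') (k : ℕ) :
    ∑ᶠ n ∈ Lev k, (n : ℝ) ^ (θ - 1) ≤ ∑ᶠ n ∈ Lev k, (n : ℝ) ^ (θ' - 1) := by
  rw [finsum_mem_eq_finite_toFinset_sum _ (fin k), finsum_mem_eq_finite_toFinset_sum _ (fin k)]
  apply Finset.sum_le_sum
  intro n hn
  rw [Set.Finite.mem_toFinset] at hn
  have h1 : (1 : ℝ) ≤ n := by exact_mod_cast hn.1
  exact Real.rpow_le_rpow_of_exponent_le h1 (by linarith)

/-- Let `η = 0.6509…` be the number with `2^η = 1 + 5^(η-1)`. All levels are finite.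

(1) For `0 < r < 1` with `F(r) > 0` and every `ε > 0`, for all large `k` at least
`exp ((F(r) - ε) k)` members of the level `k` have `log n ≤ (log 2 - r log 5) k`, and as many have
`log n ≥ (log 2 - r log 5) k`.

(2) If `1/6 ≤ r < 1 - 2^(-η)`, then at most `exp ((F(r) + ε) k)` members of the level `k` have
`log n ≤ (log 2 - r log 5) k`; if `0 < r ≤ 1/6`, then at most `exp ((F(r) + ε) k)` have
`log n ≥ (log 2 - r log 5) k` (all large `k`).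

(3) For all `t ≤ log 2` and `ε > 0`, for all large `k` at most `exp ((η t + ε) k)` members of the
level `k` have `log n ≤ t k`.

(4) For `θ > 1 - η` and `ε > 0`, for all large `k` the sum of `n^(θ - 1)` over the level `k` is between
`exp ((log M(θ) - ε) k)` and `exp ((log M(θ) + ε) k)`.

(5) For `θ ≤ 1 - η` and `ε > 0`, for all large `k` this sum is at most `exp (ε k)`; if moreover
`F(1 / (1 + 5^θ)) > 0`, then it is at least `exp ((log M(θ) - ε) k)`. -/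
theorem result : ∃ η : ℝ, 0.6509 < η ∧ η < 0.65095 ∧ (2 : ℝ) ^ η = 1 + 5 ^ (η - 1) ∧
    (∀ k : ℕ, (Lev k).Finite) ∧
    (∀ r : ℝ, 0 < r → r < 1 → 0 < F r → ∀ ε : ℝ, 0 < ε → ∃ k₀ : ℕ, ∀ k : ℕ, k₀ ≤ k →
      Real.exp ((F r - ε) * k) ≤ (Set.ncard (Sm (Real.log 2 - r * Real.log 5) k) : ℝ) ∧
      Real.exp ((F r - ε) * k) ≤ (Set.ncard (La (Real.log 2 - r * Real.log 5) k) : ℝ)) ∧
    (∀ r : ℝ, 0 < r → r < 1 - 2 ^ (-η) → 0 < F r ∧ ∀ ε : ℝ, 0 < ε → ∃ k₀ : ℕ, ∀ k : ℕ, k₀ ≤ k →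
      (1 / 6 ≤ r → (Set.ncard (Sm (Real.log 2 - r * Real.log 5) k) : ℝ) ≤
        Real.exp ((F r + ε) * k)) ∧
      (r ≤ 1 / 6 → (Set.ncard (La (Real.log 2 - r * Real.log 5) k) : ℝ) ≤
        Real.exp ((F r + ε) * k))) ∧
    (∀ t : ℝ, t ≤ Real.log 2 → ∀ ε : ℝ, 0 < ε → ∃ k₀ : ℕ, ∀ k : ℕ, k₀ ≤ k →
      (Set.ncard (Sm t k) : ℝ) ≤ Real.exp ((η * t + ε) * k)) ∧
    (∀ θ : ℝ, 1 - η < θ → ∀ ε : ℝ, 0 < ε → ∃ k₀ : ℕ, ∀ k : ℕ, k₀ ≤ k →
      Real.exp ((Real.log (M θ) - ε) * k) ≤ ∑ᶠ n ∈ Lev k, (n : ℝ) ^ (θ - 1) ∧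
      ∑ᶠ n ∈ Lev k, (n : ℝ) ^ (θ - 1) ≤ Real.exp ((Real.log (M θ) + ε) * k)) ∧
    (∀ θ : ℝ, θ ≤ 1 - η → ∀ ε : ℝ, 0 < ε → ∃ k₀ : ℕ, ∀ k : ℕ, k₀ ≤ k →
      ∑ᶠ n ∈ Lev k, (n : ℝ) ^ (θ - 1) ≤ Real.exp (ε * k) ∧
      (0 < F (1 / (1 + 5 ^ θ)) →
        Real.exp ((Real.log (M θ) - ε) * k) ≤ ∑ᶠ n ∈ Lev k, (n : ℝ) ^ (θ - 1))) := by
  obtain ⟨η, h⟩ : ∃ η : ℝ, IsEta η := Pool.Agent.H366R2.QA.exists_eta
  have hz0 := Five.z0_pos η
  have hz1 : Five.z0 η < 1 := Five.z0_lt (by linarith [h.1])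
  have hzb := Five.z0_bounds h
  have hl5 : 0 < Real.log 5 := Real.log_pos (by norm_num)
  have hpru : ∀ θ : ℝ, 1 - η < θ → ∀ ε : ℝ, 0 < ε → ∃ k₀ : ℕ, ∀ k : ℕ, k₀ ≤ k →
      ∑ᶠ n ∈ Lev k, (n : ℝ) ^ (θ - 1) ≤ Real.exp ((Real.log (M θ) + ε) * k) := by
    intro θ hθ ε hε
    obtain ⟨k₀, hk₀⟩ := t_PRU 5 1 adm {1} 1 le_one θ (Five.q_five h (zp_gt h hθ) (zp_lt θ)) ε hε
    refine ⟨k₀, fun k hk => ?_⟩
    rw [PrS_eq, M_eq]
    exact hk₀ k hk
  have hprl : ∀ θ : ℝ, 0 < F (1 / (1 + 5 ^ θ)) → ∀ ε : ℝ, 0 < ε → ∃ k₀ : ℕ, ∀ k : ℕ, k₀ ≤ k →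
      Real.exp ((Real.log (M θ) - ε) * k) ≤ ∑ᶠ n ∈ Lev k, (n : ℝ) ^ (θ - 1) := by
    intro θ hθ ε hε
    have h1 := log_lt hθ
    rw [← zp_one_sub] at hθ h1
    obtain ⟨k₀, hk₀⟩ := t_PRL 5 1 adm {1} 1 le_one 1 le_rfl (by norm_num) rfl θ
      (by rw [← F_eq]; exact hθ) (by push_cast; exact h1) ε hε
    refine ⟨k₀, fun k hk => ?_⟩
    rw [PrS_eq, M_eq]
    exact hk₀ k hk
  have hFpos : ∀ r : ℝ, 0 < r → r < 1 - Five.z0 η → 0 < F r := by
    intro r h0 h1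
    rw [F_eq]
    exact Fp_pos_of h0 h1 (by linarith) (Five.Fp_kap_pos h).le
  refine ⟨η, h.1, h.2.1, h.2.2, fin, ?_, ?_, ?_, ?_, ?_⟩
  · intro r h0 h1 hF ε hε
    obtain ⟨k₁, hk₁⟩ := sm_low h0 h1 hF hε
    obtain ⟨k₂, hk₂⟩ := la_low h0 h1 hF hε
    exact ⟨max k₁ k₂, fun k hk => ⟨hk₁ k ((le_max_left _ _).trans hk),
      hk₂ k ((le_max_right _ _).trans hk)⟩⟩
  · intro r h0 h1
    rw [two_neg] at h1
    refine ⟨hFpos r h0 h1, ?_⟩
    intro ε hε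
    have hQ : Q 5 (1 - r) := Five.q_five h (by linarith) (by linarith)
    obtain ⟨k₀, hk₀⟩ := up hQ h0.le hε
    refine ⟨k₀, fun k hk => ?_⟩
    obtain ⟨g1, g2⟩ := hk₀ k hk
    rw [php_eq (Or.inr rfl) h0 (by linarith), ← F_eq, tt_eq] at g1 g2
    refine ⟨fun hr => g1 ?_, fun hr => g2 ?_⟩
    · rw [le_div_iff₀ (by linarith)]
      linarith
    · rw [div_le_one (by linarith)]
      linarith
  · intro t ht ε hε
    obtain ⟨r, hr⟩ : ∃ r : ℝ, r = (Real.log 2 - t) / Real.log 5 := ⟨_, rfl⟩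
    have hr0 : 0 ≤ r := by
      rw [hr]
      exact div_nonneg (by linarith) hl5.le
    have ht' : t = Real.log 2 - r * Real.log 5 := by
      rw [hr]
      field_simp
      ring
    have hc : ContinuousAt (fun z => php 5 r z) (Five.z0 η) := php_cont (Or.inr rfl) hz0 hz1
    have h2 : ∀ᶠ z in 𝓝[>] (Five.z0 η), php 5 r z < η * t + ε / 2 := by
      refine (hc.mono_left nhdsWithin_le_nhds).eventually (gt_mem_nhds ?_)
      simp only
      rw [Five.php_z0 h, ← ht']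
      linarith
    have h3 : ∀ᶠ z in 𝓝[>] (Five.z0 η), z < 5 / 6 :=
      (gt_mem_nhds (by linarith)).filter_mono nhdsWithin_le_nhds
    obtain ⟨z, hz2, hz3, hz4⟩ := (h2.and (h3.and self_mem_nhdsWithin)).exists
    have hz4' : Five.z0 η < z := hz4
    obtain ⟨k₀, hk₀⟩ := up (Five.q_five h hz4' (by linarith)) hr0 (show 0 < ε / 2 by positivity)
    refine ⟨k₀, fun k hk => ?_⟩
    rw [ht']
    refine ((hk₀ k hk).1 ?_).trans ?_
    · unfold tt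
      have hzp : 0 < z := hz0.trans hz4'
      rw [le_div_iff₀ hzp]
      push_cast
      linarith
    · apply Real.exp_le_exp.2
      apply mul_le_mul_of_nonneg_right _ (Nat.cast_nonneg k)
      rw [← ht']
      linarith
  · intro θ hθ ε hε
    have hz := zp_gt h hθ
    have h5 : 0 < F (1 / (1 + 5 ^ θ)) := by
      apply hFpos
      · positivity
      · rw [← zp_one_sub]
        linarith
    obtain ⟨k₁, hk₁⟩ := hprl θ h5 ε hε
    obtain ⟨k₂, hk₂⟩ := hpru θ hθ ε hε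
    exact ⟨max k₁ k₂, fun k hk => ⟨hk₁ k ((le_max_left _ _).trans hk),
      hk₂ k ((le_max_right _ _).trans hk)⟩⟩
  · intro θ hθ ε hε
    have h2 : ∀ᶠ s in 𝓝[>] (1 - η), Real.log (M s) < ε / 2 := by
      have hc : ContinuousAt (fun s => Real.log (M s)) (1 - η) :=
        M_cont.continuousAt.log (M_pos _).ne'
      refine (hc.mono_left nhdsWithin_le_nhds).eventually (gt_mem_nhds ?_)
      simp only
      rw [M_one h, Real.log_one]
      positivity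
    obtain ⟨s, hs1, hs2⟩ := (h2.and self_mem_nhdsWithin).exists
    have hs2' : 1 - η < s := hs2
    obtain ⟨k₁, hk₁⟩ := hpru s hs2' (ε / 2) (by positivity)
    by_cases h5 : 0 < F (1 / (1 + 5 ^ θ))
    · obtain ⟨k₂, hk₂⟩ := hprl θ h5 ε hε
      refine ⟨max k₁ k₂, fun k hk => ⟨?_, fun _ => hk₂ k ((le_max_right _ _).trans hk)⟩⟩
      refine (sum_mono (by linarith : θ ≤ s) k).trans ((hk₁ k ((le_max_left _ _).trans hk)).trans ?_)
      apply Real.exp_le_exp.2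
      apply mul_le_mul_of_nonneg_right _ (Nat.cast_nonneg k)
      linarith
    · refine ⟨k₁, fun k hk => ⟨?_, fun h6 => absurd h6 h5⟩⟩
      refine (sum_mono (by linarith : θ ≤ s) k).trans ((hk₁ k hk).trans ?_)
      apply Real.exp_le_exp.2
      apply mul_le_mul_of_nonneg_right _ (Nat.cast_nonneg k)
      linarith

end Pool.Agent.Results.MP_0baeaf_nt.LevelsAndPressure
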